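import Mathlib

/-!
Conic bundle surfaces `x² - a y² = F(t)`: unirationality.
-/

namespace Pool.Agent.Work.MP_d5a5f5_ag.C8

/-- The surface `S : x² - a y² = F(t)` is `k`-unirational: there are rational functions `t, x, y` of
`n` variables over `k` with `x² - a y² = F(t)`, that is, a rational map from `n`-space to `S`, and
this map is dominant: every polynomial over `k` in `t, x, y` which vanishes at these rational
functions vanishes at every point of `S` over the algebraic closure of `k`. -/
def Unirational {k : Type*} [Field k] (a : k) (F : Polynomial k) : Prop :=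
  ∃ (n : ℕ) (t x y : FractionRing (MvPolynomial (Fin n) k)),
    x ^ 2 - algebraMap k _ a * y ^ 2 = Polynomial.aeval t F ∧
    ∀ H : MvPolynomial (Fin 3) k, MvPolynomial.aeval ![t, x, y] H = 0 →
      ∀ t' x' y' : AlgebraicClosure k, x' ^ 2 - algebraMap k _ a * y' ^ 2 = Polynomial.aeval t' F →
        MvPolynomial.aeval ![t', x', y'] H = 0

end Pool.Agent.Work.MP_d5a5f5_ag.C8
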