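import Pool.Agent.Work.MP_d5a5f5_ag.C8.Formula

/-!
The degrees of the numerator and the denominator of the base coordinate.
-/

namespace Pool.Agent.Work.MP_d5a5f5_ag.C8

set_option linter.unusedSectionVars false

open Polynomial

section
variable {k : Type*} [Field k] [CharZero k] (a e2 e3 e4 e5 e6 e7 e8 : k)

noncomputable def gP : k[X] := C a * X ^ 2
noncomputable def gN : k[X] := C (1 / 16) * (C (4 * e3 ^ 2 - 16 * e6 + 8 * e2 * e4 - 2 * e2 ^ 3)
  + gP a * C (8 * e4 - 3 * e2 ^ 2) - C (4 * e2) * gP a ^ 2 - C 7 * gP a ^ 3)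
noncomputable def gD : k[X] := C (e3 / 2) * (gP a - C e2) + C e5
noncomputable def gX2 : k[X] := C (1 / 2) * (C e2 + gP a)
noncomputable def gM1 : k[X] := C (e3 / 2) * gD a e2 e3 e5 - gP a * gN a e2 e3 e4 e6
noncomputable def gM0 : k[X] :=
  (C e4 - gX2 a e2 ^ 2 + C (1 / 2) * (gP a * (C e2 - gP a))) * gD a e2 e3 e5 ^ 2
  + gP a * gN a e2 e3 e4 e6 ^ 2
noncomputable def gMw : k[X] := gM1 a e2 e3 e4 e5 e6 * gX2 a e2 - C (e5 / 2) * gD a e2 e3 e5
  + C (1 / 4) * (gP a * (C e2 - gP a)) * gN a e2 e3 e4 e6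
noncomputable def gNum : k[X] := gP a * gM0 a e2 e3 e4 e5 e6 ^ 2
  - C 4 * gD a e2 e3 e5 ^ 2 * gMw a e2 e3 e4 e5 e6 ^ 2
  - C (4 * e8) * gP a * gD a e2 e3 e5 ^ 4
noncomputable def gB : k[X] := gM1 a e2 e3 e4 e5 e6 * gM0 a e2 e3 e4 e5 e6
  - C (1 / 2) * (C e2 - gP a) * gMw a e2 e3 e4 e5 e6 * gD a e2 e3 e5 ^ 2
  - C e7 * gD a e2 e3 e5 ^ 3
noncomputable def gU : k[X] := C 4 * gP a * gD a e2 e3 e5 * gB a e2 e3 e4 e5 e6 e7

theorem eval_gP (x : k) : eval x (gP a) = fP a x := by simp [gP, fP]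
theorem eval_gN (x : k) : eval x (gN a e2 e3 e4 e6) = fN a e2 e3 e4 e6 x := by
  simp only [gN, fN, eval_mul, eval_C, eval_add, eval_sub, eval_pow, eval_gP]; ring
theorem eval_gD (x : k) : eval x (gD a e2 e3 e5) = fD a e2 e3 e5 x := by
  simp only [gD, fD, eval_mul, eval_C, eval_add, eval_sub, eval_gP]; ring
theorem eval_gX2 (x : k) : eval x (gX2 a e2) = fX2 a e2 x := by
  simp only [gX2, fX2, eval_mul, eval_C, eval_add, eval_gP]; ring
theorem eval_gM1 (x : k) : eval x (gM1 a e2 e3 e4 e5 e6) = fM1 a e2 e3 e4 e5 e6 x := by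
  simp only [gM1, fM1, eval_mul, eval_C, eval_sub, eval_gP, eval_gD, eval_gN]
theorem eval_gM0 (x : k) : eval x (gM0 a e2 e3 e4 e5 e6) = fM0 a e2 e3 e4 e5 e6 x := by
  simp only [gM0, fM0, eval_mul, eval_C, eval_add, eval_sub, eval_pow, eval_gP, eval_gD, eval_gN,
    eval_gX2]; ring
theorem eval_gMw (x : k) : eval x (gMw a e2 e3 e4 e5 e6) = fMw a e2 e3 e4 e5 e6 x := by
  simp only [gMw, fMw, eval_mul, eval_C, eval_add, eval_sub, eval_gP, eval_gD, eval_gN,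
    eval_gX2, eval_gM1]; ring
theorem eval_gNum (x : k) : eval x (gNum a e2 e3 e4 e5 e6 e8) = fNum a e2 e3 e4 e5 e6 e8 x := by
  simp only [gNum, fNum, eval_mul, eval_C, eval_sub, eval_pow, eval_gP, eval_gD, eval_gM0,
    eval_gMw]
theorem eval_gB (x : k) : eval x (gB a e2 e3 e4 e5 e6 e7) = fB a e2 e3 e4 e5 e6 e7 x := by
  simp only [gB, fB, eval_mul, eval_C, eval_sub, eval_pow, eval_gP, eval_gD, eval_gM0,
    eval_gMw, eval_gM1]; ring
theorem eval_gU (x : k) : eval x (gU a e2 e3 e4 e5 e6 e7) = fU a e2 e3 e4 e5 e6 e7 x := by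
  simp only [gU, fU, eval_mul, eval_C, eval_gP, eval_gD, eval_gB]

variable (ha : a ≠ 0)
include ha

theorem deg_gP : (gP a).natDegree = 2 := natDegree_C_mul_X_pow 2 a ha

theorem deg_gN : (gN a e2 e3 e4 e6).natDegree = 6 := by
  unfold gN gP
  compute_degree!

theorem deg_gD : (gD a e2 e3 e5).natDegree ≤ 2 := by
  unfold gD gP
  compute_degree

theorem deg_gX2 : (gX2 a e2).natDegree ≤ 2 := by
  unfold gX2 gP
  compute_degree

theorem ne_gP : gP a ≠ 0 := fun h => by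
  have := deg_gP a ha
  rw [h] at this; simp at this

theorem ne_gN : gN a e2 e3 e4 e6 ≠ 0 := fun h => by
  have := deg_gN a e2 e3 e4 e6 ha
  rw [h] at this; simp at this

theorem deg_gM1 : (gM1 a e2 e3 e4 e5 e6).natDegree = 8 := by
  have h1 : (gP a * gN a e2 e3 e4 e6).natDegree = 8 := by
    rw [natDegree_mul (ne_gP a ha) (ne_gN a e2 e3 e4 e6 ha), deg_gP a ha, deg_gN a e2 e3 e4 e6 ha]
  have h2 : (C (e3 / 2) * gD a e2 e3 e5).natDegree ≤ 2 :=
    (natDegree_C_mul_le _ _).trans (deg_gD a e2 e3 e5 ha)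
  unfold gM1
  rw [natDegree_sub_eq_right_of_natDegree_lt (by omega), h1]

theorem ne_gM1 : gM1 a e2 e3 e4 e5 e6 ≠ 0 := fun h => by
  have := deg_gM1 a e2 e3 e4 e5 e6 ha
  rw [h] at this; simp at this

theorem deg_gM0 : (gM0 a e2 e3 e4 e5 e6).natDegree = 14 := by
  have h1 : (gP a * gN a e2 e3 e4 e6 ^ 2).natDegree = 14 := by
    rw [natDegree_mul (ne_gP a ha) (pow_ne_zero 2 (ne_gN a e2 e3 e4 e6 ha)), natDegree_pow,
      deg_gP a ha, deg_gN a e2 e3 e4 e6 ha]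
  have h2 : (C e4 - gX2 a e2 ^ 2 + C (1 / 2) * (gP a * (C e2 - gP a))).natDegree ≤ 4 := by
    have q1 : (gX2 a e2 ^ 2).natDegree ≤ 4 := by
      rw [natDegree_pow]; have := deg_gX2 a e2 ha; omega
    have q2 : (gP a * (C e2 - gP a)).natDegree ≤ 4 := by
      refine natDegree_mul_le.trans ?_
      have q3 : (C e2 - gP a).natDegree ≤ 2 := (natDegree_sub_le _ _).trans (by
        rw [natDegree_C, deg_gP a ha]; simp)
      rw [deg_gP a ha]; omega
    refine (natDegree_add_le _ _).trans (max_le ?_ ((natDegree_C_mul_le _ _).trans q2))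
    exact (natDegree_sub_le _ _).trans (max_le (by simp) q1)
  have h3 : ((C e4 - gX2 a e2 ^ 2 + C (1 / 2) * (gP a * (C e2 - gP a))) *
      gD a e2 e3 e5 ^ 2).natDegree ≤ 8 := by
    refine natDegree_mul_le.trans ?_
    rw [natDegree_pow]; have := deg_gD a e2 e3 e5 ha; omega
  unfold gM0
  rw [natDegree_add_eq_right_of_natDegree_lt (by omega), h1]

theorem ne_gM0 : gM0 a e2 e3 e4 e5 e6 ≠ 0 := fun h => by
  have := deg_gM0 a e2 e3 e4 e5 e6 ha
  rw [h] at this; simp at this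

theorem deg_gMw : (gMw a e2 e3 e4 e5 e6).natDegree ≤ 10 := by
  have h0 := deg_gX2 a e2 ha
  have h1 : (gM1 a e2 e3 e4 e5 e6 * gX2 a e2).natDegree ≤ 10 := by
    refine natDegree_mul_le.trans ?_
    rw [deg_gM1 a e2 e3 e4 e5 e6 ha]; omega
  have h2 : (C (e5 / 2) * gD a e2 e3 e5).natDegree ≤ 10 :=
    (natDegree_C_mul_le _ _).trans ((deg_gD a e2 e3 e5 ha).trans (by norm_num))
  have h3 : (C (1 / 4) * (gP a * (C e2 - gP a)) * gN a e2 e3 e4 e6).natDegree ≤ 10 := by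
    refine natDegree_mul_le.trans ?_
    have q3 : (C e2 - gP a).natDegree ≤ 2 := (natDegree_sub_le _ _).trans (by
      rw [natDegree_C, deg_gP a ha]; simp)
    have q2 : (gP a * (C e2 - gP a)).natDegree ≤ 4 := by
      refine natDegree_mul_le.trans ?_
      rw [deg_gP a ha]; omega
    have q4 := (natDegree_C_mul_le (1 / 4 : k) (gP a * (C e2 - gP a))).trans q2
    rw [deg_gN a e2 e3 e4 e6 ha]; omega
  unfold gMw
  exact (natDegree_add_le _ _).trans (max_le ((natDegree_sub_le _ _).trans (max_le h1 h2)) h3)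

theorem deg_gB : (gB a e2 e3 e4 e5 e6 e7).natDegree = 22 := by
  have h1 : (gM1 a e2 e3 e4 e5 e6 * gM0 a e2 e3 e4 e5 e6).natDegree = 22 := by
    rw [natDegree_mul (ne_gM1 a e2 e3 e4 e5 e6 ha) (ne_gM0 a e2 e3 e4 e5 e6 ha),
      deg_gM1 a e2 e3 e4 e5 e6 ha, deg_gM0 a e2 e3 e4 e5 e6 ha]
  have hD := deg_gD a e2 e3 e5 ha
  have hw := deg_gMw a e2 e3 e4 e5 e6 ha
  have h2 : (C (1 / 2) * (C e2 - gP a) * gMw a e2 e3 e4 e5 e6 * gD a e2 e3 e5 ^ 2).natDegree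
      ≤ 16 := by
    have q3 : (C e2 - gP a).natDegree ≤ 2 := (natDegree_sub_le _ _).trans (by
      rw [natDegree_C, deg_gP a ha]; simp)
    have q4 := (natDegree_C_mul_le (1 / 2 : k) (C e2 - gP a)).trans q3
    refine natDegree_mul_le.trans ?_
    rw [natDegree_pow]
    have q5 : (C (1 / 2) * (C e2 - gP a) * gMw a e2 e3 e4 e5 e6).natDegree ≤ 12 :=
      natDegree_mul_le.trans (by omega)
    omega
  have h3 : (C e7 * gD a e2 e3 e5 ^ 3).natDegree ≤ 6 := by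
    refine (natDegree_C_mul_le _ _).trans ?_
    rw [natDegree_pow]; omega
  unfold gB
  have h4 : (gM1 a e2 e3 e4 e5 e6 * gM0 a e2 e3 e4 e5 e6
      - C (1 / 2) * (C e2 - gP a) * gMw a e2 e3 e4 e5 e6 * gD a e2 e3 e5 ^ 2).natDegree = 22 := by
    rw [natDegree_sub_eq_left_of_natDegree_lt (by omega), h1]
  rw [natDegree_sub_eq_left_of_natDegree_lt (by omega), h4]

theorem ne_gB : gB a e2 e3 e4 e5 e6 e7 ≠ 0 := fun h => by
  have := deg_gB a e2 e3 e4 e5 e6 e7 ha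
  rw [h] at this; simp at this

theorem deg_gNum : (gNum a e2 e3 e4 e5 e6 e8).natDegree = 30 := by
  have h1 : (gP a * gM0 a e2 e3 e4 e5 e6 ^ 2).natDegree = 30 := by
    rw [natDegree_mul (ne_gP a ha) (pow_ne_zero 2 (ne_gM0 a e2 e3 e4 e5 e6 ha)), natDegree_pow,
      deg_gP a ha, deg_gM0 a e2 e3 e4 e5 e6 ha]
  have hD := deg_gD a e2 e3 e5 ha
  have hw := deg_gMw a e2 e3 e4 e5 e6 ha
  have hP := deg_gP a ha
  have h2 : (C 4 * gD a e2 e3 e5 ^ 2 * gMw a e2 e3 e4 e5 e6 ^ 2).natDegree ≤ 24 := by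
    refine natDegree_mul_le.trans ?_
    have q1 := natDegree_C_mul_le (4 : k) (gD a e2 e3 e5 ^ 2)
    rw [natDegree_pow] at q1 ⊢
    omega
  have h3 : (C (4 * e8) * gP a * gD a e2 e3 e5 ^ 4).natDegree ≤ 10 := by
    refine natDegree_mul_le.trans ?_
    have q1 := natDegree_C_mul_le (4 * e8 : k) (gP a)
    rw [natDegree_pow]
    omega
  unfold gNum
  have h4 : (gP a * gM0 a e2 e3 e4 e5 e6 ^ 2
      - C 4 * gD a e2 e3 e5 ^ 2 * gMw a e2 e3 e4 e5 e6 ^ 2).natDegree = 30 := by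
    rw [natDegree_sub_eq_left_of_natDegree_lt (by omega), h1]
  rw [natDegree_sub_eq_left_of_natDegree_lt (by omega), h4]

theorem deg_gU : (gU a e2 e3 e4 e5 e6 e7).natDegree ≤ 26 := by
  have hD := deg_gD a e2 e3 e5 ha
  have hP := deg_gP a ha
  have hB := deg_gB a e2 e3 e4 e5 e6 e7 ha
  unfold gU
  refine natDegree_mul_le.trans ?_
  have q1 := natDegree_C_mul_le (4 : k) (gP a)
  have q2 : (C 4 * gP a * gD a e2 e3 e5).natDegree ≤ 4 := natDegree_mul_le.trans (by omega)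
  omega

theorem ne_gD (h : ¬ (e3 = 0 ∧ e5 = 0)) : gD a e2 e3 e5 ≠ 0 := by
  intro h0
  apply h
  have h1 : gD a e2 e3 e5 = C (e3 / 2 * a) * X ^ 2 + C (e5 - e3 / 2 * e2) := by
    unfold gD gP; simp only [C_mul, C_sub]; ring
  rw [h1] at h0
  have c2 := congrArg (fun q => coeff q 2) h0
  have c0 := congrArg (fun q => coeff q 0) h0
  simp only [coeff_add, coeff_C_mul, coeff_X_pow, coeff_C, coeff_zero] at c2 c0
  norm_num at c2 c0
  have h3 : e3 = 0 := c2.resolve_right ha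
  refine ⟨h3, ?_⟩
  rw [h3] at c0
  linear_combination c0

theorem ne_gU (h : ¬ (e3 = 0 ∧ e5 = 0)) : gU a e2 e3 e4 e5 e6 e7 ≠ 0 := by
  unfold gU
  exact mul_ne_zero (mul_ne_zero (mul_ne_zero (by simp) (ne_gP a ha))
    (ne_gD a e2 e3 e5 ha h)) (ne_gB a e2 e3 e4 e5 e6 e7 ha)

end

end Pool.Agent.Work.MP_d5a5f5_ag.C8
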