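import Mathlib

/-!
Specialisation of rational functions at points.
-/

namespace Pool.Agent.Work.MP_d5a5f5_ag.C8

open MvPolynomial

variable {k : Type*} [Field k] {n : ℕ}

/-- the rational function `z` is defined at the point `π` and takes there the value `c` -/
def Sp (π : MvPolynomial (Fin n) k →ₐ[k] k) (z : FractionRing (MvPolynomial (Fin n) k)) (c : k) :
    Prop :=
  ∃ u d : MvPolynomial (Fin n) k, π d ≠ 0 ∧ z * algebraMap _ _ d = algebraMap _ _ u ∧ c * π d = π u

variable {π : MvPolynomial (Fin n) k →ₐ[k] k} {z z' : FractionRing (MvPolynomial (Fin n) k)}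
  {c c' : k}

theorem Sp.const (r : k) : Sp π (algebraMap k _ r) r := by
  refine ⟨C r, 1, by simp, ?_, ?_⟩
  · rw [map_one, mul_one]
    exact IsScalarTower.algebraMap_apply k (MvPolynomial (Fin n) k) _ r
  · rw [map_one, mul_one]
    exact (π.commutes r).symm

theorem Sp.poly (u : MvPolynomial (Fin n) k) : Sp π (algebraMap _ _ u) (π u) :=
  ⟨u, 1, by simp, by simp, by simp⟩

theorem Sp.add (h : Sp π z c) (h' : Sp π z' c') : Sp π (z + z') (c + c') := by
  obtain ⟨u, d, h1, h2, h3⟩ := h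
  obtain ⟨u', d', h1', h2', h3'⟩ := h'
  refine ⟨u * d' + u' * d, d * d', ?_, ?_, ?_⟩
  · rw [map_mul]; exact mul_ne_zero h1 h1'
  · simp only [map_mul, map_add]
    linear_combination (algebraMap _ (FractionRing (MvPolynomial (Fin n) k)) d') * h2
      + (algebraMap _ (FractionRing (MvPolynomial (Fin n) k)) d) * h2'
  · simp only [map_mul, map_add]
    linear_combination π d' * h3 + π d * h3'

theorem Sp.mul (h : Sp π z c) (h' : Sp π z' c') : Sp π (z * z') (c * c') := by
  obtain ⟨u, d, h1, h2, h3⟩ := h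
  obtain ⟨u', d', h1', h2', h3'⟩ := h'
  refine ⟨u * u', d * d', ?_, ?_, ?_⟩
  · rw [map_mul]; exact mul_ne_zero h1 h1'
  · simp only [map_mul]
    rw [← h2, ← h2']; ring
  · simp only [map_mul]
    rw [← h3, ← h3']; ring

theorem Sp.neg (h : Sp π z c) : Sp π (-z) (-c) := by
  obtain ⟨u, d, h1, h2, h3⟩ := h
  refine ⟨-u, d, h1, ?_, ?_⟩
  · rw [map_neg, ← h2]; ring
  · rw [map_neg, ← h3]; ring

theorem Sp.sub (h : Sp π z c) (h' : Sp π z' c') : Sp π (z - z') (c - c') := by
  rw [sub_eq_add_neg, sub_eq_add_neg]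
  exact h.add h'.neg

theorem Sp.pow (h : Sp π z c) (m : ℕ) : Sp π (z ^ m) (c ^ m) := by
  induction m with
  | zero => simpa using Sp.const (π := π) 1
  | succ m ih => rw [pow_succ, pow_succ]; exact ih.mul h

theorem Sp.inv (h : Sp π z c) (hc : c ≠ 0) : Sp π z⁻¹ c⁻¹ := by
  obtain ⟨u, d, h1, h2, h3⟩ := h
  have hu : π u ≠ 0 := by rw [← h3]; exact mul_ne_zero hc h1
  have hu0 : algebraMap _ (FractionRing (MvPolynomial (Fin n) k)) u ≠ 0 := by
    intro h
    have := (map_eq_zero_iff _ (IsFractionRing.injective (MvPolynomial (Fin n) k)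
      (FractionRing (MvPolynomial (Fin n) k)))).mp h
    rw [this, map_zero] at hu
    exact hu rfl
  have hz : z ≠ 0 := by
    rintro rfl
    rw [zero_mul] at h2
    exact hu0 h2.symm
  refine ⟨d, u, hu, ?_, ?_⟩
  · rw [← h2, inv_mul_cancel_left₀ hz]
  · rw [← h3, inv_mul_cancel_left₀ hc]

theorem Sp.div (h : Sp π z c) (h' : Sp π z' c') (hc : c' ≠ 0) : Sp π (z / z') (c / c') := by
  rw [div_eq_mul_inv, div_eq_mul_inv]
  exact h.mul (h'.inv hc)

theorem Sp.ofNat (m : ℕ) [m.AtLeastTwo] : Sp π (OfNat.ofNat m) (OfNat.ofNat m : k) := by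
  have := Sp.const (π := π) (OfNat.ofNat m : k)
  rwa [map_ofNat] at this

theorem Sp.eq_zero (h : Sp π 0 c) : c = 0 := by
  obtain ⟨u, d, h1, h2, h3⟩ := h
  rw [zero_mul] at h2
  have := (map_eq_zero_iff _ (IsFractionRing.injective (MvPolynomial (Fin n) k)
    (FractionRing (MvPolynomial (Fin n) k)))).mp h2.symm
  rw [this, map_zero] at h3
  exact (mul_eq_zero.mp h3).resolve_right h1

theorem Sp.aeval {m : ℕ} {z : Fin m → FractionRing (MvPolynomial (Fin n) k)} {c : Fin m → k}
    (h : ∀ i, Sp π (z i) (c i)) (H : MvPolynomial (Fin m) k) :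
    Sp π (MvPolynomial.aeval z H) (MvPolynomial.aeval c H) := by
  induction H using MvPolynomial.induction_on with
  | C r =>
    rw [algHom_C, algHom_C]; exact Sp.const r
  | add p q hp hq => rw [map_add, map_add]; exact hp.add hq
  | mul_X p i hp => rw [map_mul, map_mul, aeval_X, aeval_X]; exact hp.mul (h i)

end Pool.Agent.Work.MP_d5a5f5_ag.C8
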