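import Pool.Agent.Work.MP_d5a5f5_ag.C8.Defs
import Pool.Agent.Work.MP_d5a5f5_ag.C8.Spec
import Pool.Agent.Work.MP_d5a5f5_ag.C8.Degree

/-!
Conic bundles `x² - a y² = F(t)` with `F` of degree eight.
-/

namespace Pool.Agent.Work.MP_d5a5f5_ag.C8

set_option linter.unusedSectionVars false

open Polynomial

universe u

section dom
variable {k : Type u} [Field k] [CharZero k]

/-- evaluation of a polynomial in `y` over `k[t]` -/
noncomputable def ev2 {R : Type*} [CommRing R] [Algebra k R] (t y : R) : k[X][X] →+* R :=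
  eval₂RingHom (aeval t : k[X] →ₐ[k] R).toRingHom y

theorem ev2_C {R : Type*} [CommRing R] [Algebra k R] (t y : R) (f : k[X]) :
    ev2 t y (C f) = aeval t f := by
  simp [ev2]

theorem ev2_X {R : Type*} [CommRing R] [Algebra k R] (t y : R) :
    ev2 (k := k) t y X = y := by
  simp [ev2]

theorem division (a : k) (F : k[X]) (H : MvPolynomial (Fin 3) k) :
    ∃ A B : k[X][X], ∀ {R : Type u} [CommRing R] [Algebra k R] (t x y : R),
      x ^ 2 - algebraMap k R a * y ^ 2 = aeval t F →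
        MvPolynomial.aeval ![t, x, y] H = ev2 t y A + ev2 t y B * x := by
  induction H using MvPolynomial.induction_on with
  | C c => exact ⟨C (C c), 0, by
      intro R _ _ t x y _; rw [MvPolynomial.algHom_C, ev2_C, aeval_C]; simp⟩
  | add p q hp hq =>
    obtain ⟨A, B, h1⟩ := hp
    obtain ⟨A', B', h2⟩ := hq
    refine ⟨A + A', B + B', ?_⟩
    intro R _ _ t x y hw
    rw [map_add, h1 t x y hw, h2 t x y hw, map_add, map_add]; ring
  | mul_X p i hp =>
    obtain ⟨A, B, h1⟩ := hp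
    fin_cases i
    · refine ⟨A * C X, B * C X, ?_⟩
      intro R _ _ t x y hw
      rw [map_mul, h1 t x y hw, MvPolynomial.aeval_X, map_mul, map_mul, ev2_C, aeval_X]
      simp; ring
    · refine ⟨B * (C (C a) * X ^ 2 + C F), A, ?_⟩
      intro R _ _ t x y hw
      rw [map_mul, h1 t x y hw, MvPolynomial.aeval_X, map_mul, map_add, map_mul, map_pow, ev2_C,
        ev2_C, ev2_X, aeval_C, ← hw]
      simp; ring
    · refine ⟨A * X, B * X, ?_⟩
      intro R _ _ t x y hw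
      rw [map_mul, h1 t x y hw, MvPolynomial.aeval_X, map_mul, map_mul, ev2_X]
      simp; ring

/-- `a Y² + F` is not a square -/
theorem not_sq (a : k) (ha : a ≠ 0) (F : k[X]) (hF : F ≠ 0) (c : k[X][X]) :
    c ^ 2 ≠ C (C a) * X ^ 2 + C F := by
  intro h
  have hd : (c ^ 2).natDegree = 2 := by
    rw [h]
    have : (C (C a) : k[X][X]) ≠ 0 := by simpa using ha
    compute_degree!
  rw [natDegree_pow] at hd
  obtain ⟨c1, c0, hc⟩ := exists_eq_X_add_C_of_natDegree_le_one (by omega : c.natDegree ≤ 1)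
  rw [hc] at h
  have h0 := congrArg (eval (0 : k[X])) h
  have h1 := congrArg (eval (1 : k[X])) h
  have h2 := congrArg (eval (-1 : k[X])) h
  simp at h0 h1 h2
  have hc0 : c0 ≠ 0 := by
    rintro rfl
    apply hF
    rw [← h0]; ring
  have h3 : (4 : k[X]) * c1 * c0 = 0 := by linear_combination h1 - h2
  have h4 : (4 : k[X]) ≠ 0 := by
    have : (4 : k[X]) = C 4 := (map_ofNat C 4).symm
    rw [this]; simp
  have h5 : c1 = 0 := by
    rcases mul_eq_zero.mp h3 with h | h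
    · exact (mul_eq_zero.mp h).resolve_left h4
    · exact absurd h hc0
  rw [h5] at h1
  have h6 : (C a : k[X]) = 0 := by linear_combination h0 - h1
  exact ha (by simpa using h6)

theorem dense_zero (G : k[X][X]) (T : Set k) (hT : T.Infinite)
    (h : ∀ t ∈ T, {y : k | ev2 t y G = 0}.Infinite) : G = 0 := by
  have h1 : ∀ t ∈ T, G.map (evalRingHom t) = 0 := by
    intro t ht
    apply eq_zero_of_infinite_isRoot
    refine (h t ht).mono fun y hy => ?_
    simp only [Set.mem_ofPred_eq, IsRoot.def] at hy ⊢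
    rw [eval_map]
    rw [← hy]
    simp only [ev2, coe_eval₂RingHom]
    congr 1
  ext1 j
  rw [coeff_zero]
  apply eq_zero_of_infinite_isRoot
  refine hT.mono fun t ht => ?_
  have h2 := congrArg (fun q => coeff q j) (h1 t ht)
  simp only [coeff_map, coeff_zero, coe_evalRingHom] at h2
  exact h2

theorem infinite_image (S : Set k) (hS : S.Infinite) (f : k → k)
    (h : ∀ c, {s | s ∈ S ∧ f s = c}.Finite) : (f '' S).Infinite := by
  intro hfin
  apply hS
  exact Set.Finite.of_finite_fibers f hfin (fun x _ => h x)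

/-- the values of `y` on a fibre -/
theorem fibre_infinite (a x0 y0 : k) (ha : a ≠ 0) (hF : x0 ^ 2 - a * y0 ^ 2 ≠ 0) :
    ((fun v => (y0 * (1 + a * v ^ 2) + 2 * v * x0) / (1 - a * v ^ 2)) ''
      {v : k | 1 - a * v ^ 2 ≠ 0}).Infinite := by
  apply infinite_image
  · have h1 : (1 - C a * X ^ 2 : k[X]) ≠ 0 := by
      intro h
      have := congrArg (eval 0) h
      simp at this
    refine (finite_setOfPred_isRoot h1).infinite_compl.mono fun v hv => ?_
    simpa using hv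
  · intro c
    have h1 : (C (a * (y0 + c)) * X ^ 2 + C (2 * x0) * X + C (y0 - c) : k[X]) ≠ 0 := by
      intro h
      have e2 := congrArg (fun q => coeff q 2) h
      have e1 := congrArg (fun q => coeff q 1) h
      have e0 := congrArg (fun q => coeff q 0) h
      simp only [coeff_add, coeff_C_mul, coeff_X_pow, coeff_X, coeff_C, coeff_zero] at e2 e1 e0
      norm_num at e2 e1 e0
      have e3 : y0 + c = 0 := e2.resolve_left ha
      apply hF
      have : y0 = 0 := by linear_combination (e3 + e0) / 2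
      rw [e1, this]; ring
    refine (finite_setOfPred_isRoot h1).subset fun v hv => ?_
    obtain ⟨hv1, hv2⟩ := hv
    simp only [Set.mem_ofPred_eq] at hv1
    rw [div_eq_iff hv1] at hv2
    simp only [Set.mem_ofPred_eq, IsRoot.def, eval_add, eval_mul, eval_C, eval_pow, eval_X]
    linear_combination hv2

/-- the values of the base coordinate -/
theorem base_infinite (a e2 e3 e4 e5 e6 e7 e8 : k) (ha : a ≠ 0) (h : ¬ (e3 = 0 ∧ e5 = 0)) :
    ((fun p => ft a e2 e3 e4 e5 e6 e7 e8 p) ''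
      {p : k | fU a e2 e3 e4 e5 e6 e7 p ≠ 0}).Infinite := by
  apply infinite_image
  · refine (finite_setOfPred_isRoot (ne_gU a e2 e3 e4 e5 e6 e7 ha h)).infinite_compl.mono
      fun v hv => ?_
    simp only [Set.mem_compl_iff, Set.mem_ofPred_eq, IsRoot.def, eval_gU] at hv
    exact hv
  · intro c
    have h1 : gNum a e2 e3 e4 e5 e6 e8 + C c * gU a e2 e3 e4 e5 e6 e7 ≠ 0 := by
      intro h0
      have h2 : (gNum a e2 e3 e4 e5 e6 e8 + C c * gU a e2 e3 e4 e5 e6 e7).natDegree = 30 := by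
        have q1 := deg_gNum a e2 e3 e4 e5 e6 e8 ha
        have q2 := (natDegree_C_mul_le c (gU a e2 e3 e4 e5 e6 e7)).trans
          (deg_gU a e2 e3 e4 e5 e6 e7 ha)
        rw [natDegree_add_eq_left_of_natDegree_lt (by omega), q1]
      rw [h0] at h2
      simp at h2
    refine (finite_setOfPred_isRoot h1).subset fun v hv => ?_
    obtain ⟨hv1, hv2⟩ := hv
    simp only [Set.mem_ofPred_eq] at hv1
    unfold ft at hv2
    rw [div_eq_iff hv1] at hv2
    simp only [Set.mem_ofPred_eq, IsRoot.def, eval_add, eval_mul, eval_C, eval_gNum, eval_gU]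
    linear_combination -hv2

end dom

section sp
variable {k : Type u} [Field k] [CharZero k] {n : ℕ} {π : MvPolynomial (Fin n) k →ₐ[k] k}
  {A E2 E3 E4 E5 E6 E7 E8 P : FractionRing (MvPolynomial (Fin n) k)}
  {a e2 e3 e4 e5 e6 e7 e8 p : k}

theorem sp_fP (hA : Sp π A a) (hp : Sp π P p) : Sp π (fP A P) (fP a p) := by
  unfold fP; exact hA.mul (hp.pow 2)

theorem sp_fN (hA : Sp π A a) (h2 : Sp π E2 e2) (h3 : Sp π E3 e3) (h4 : Sp π E4 e4)
    (h6 : Sp π E6 e6) (hp : Sp π P p) : Sp π (fN A E2 E3 E4 E6 P) (fN a e2 e3 e4 e6 p) := by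
  have hP := sp_fP hA hp
  unfold fN
  exact (((((((Sp.ofNat 4).mul (h3.pow 2)).sub ((Sp.ofNat 16).mul h6)).add
    (((Sp.ofNat 8).mul h2).mul h4)).sub ((Sp.ofNat 2).mul (h2.pow 3))).add
    (hP.mul (((Sp.ofNat 8).mul h4).sub ((Sp.ofNat 3).mul (h2.pow 2))))).sub
    (((Sp.ofNat 4).mul h2).mul (hP.pow 2))).sub ((Sp.ofNat 7).mul (hP.pow 3))
    |>.div (Sp.ofNat 16) (by norm_num)

theorem sp_fD (hA : Sp π A a) (h2 : Sp π E2 e2) (h3 : Sp π E3 e3) (h5 : Sp π E5 e5)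
    (hp : Sp π P p) : Sp π (fD A E2 E3 E5 P) (fD a e2 e3 e5 p) := by
  have hP := sp_fP hA hp
  unfold fD
  exact ((h3.mul (hP.sub h2)).div (Sp.ofNat 2) (by norm_num)).add h5

theorem sp_fX2 (hA : Sp π A a) (h2 : Sp π E2 e2) (hp : Sp π P p) :
    Sp π (fX2 A E2 P) (fX2 a e2 p) := by
  have hP := sp_fP hA hp
  unfold fX2
  exact (h2.add hP).div (Sp.ofNat 2) (by norm_num)

theorem sp_fM1 (hA : Sp π A a) (h2 : Sp π E2 e2) (h3 : Sp π E3 e3) (h4 : Sp π E4 e4)
    (h5 : Sp π E5 e5) (h6 : Sp π E6 e6) (hp : Sp π P p) :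
    Sp π (fM1 A E2 E3 E4 E5 E6 P) (fM1 a e2 e3 e4 e5 e6 p) := by
  unfold fM1
  exact ((h3.div (Sp.ofNat 2) (by norm_num)).mul (sp_fD hA h2 h3 h5 hp)).sub
    ((sp_fP hA hp).mul (sp_fN hA h2 h3 h4 h6 hp))

theorem sp_fM0 (hA : Sp π A a) (h2 : Sp π E2 e2) (h3 : Sp π E3 e3) (h4 : Sp π E4 e4)
    (h5 : Sp π E5 e5) (h6 : Sp π E6 e6) (hp : Sp π P p) :
    Sp π (fM0 A E2 E3 E4 E5 E6 P) (fM0 a e2 e3 e4 e5 e6 p) := by
  have hP := sp_fP hA hp
  unfold fM0
  exact (((h4.sub ((sp_fX2 hA h2 hp).pow 2)).add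
    ((hP.mul (h2.sub hP)).div (Sp.ofNat 2) (by norm_num))).mul
    ((sp_fD hA h2 h3 h5 hp).pow 2)).add (hP.mul ((sp_fN hA h2 h3 h4 h6 hp).pow 2))

theorem sp_fMw (hA : Sp π A a) (h2 : Sp π E2 e2) (h3 : Sp π E3 e3) (h4 : Sp π E4 e4)
    (h5 : Sp π E5 e5) (h6 : Sp π E6 e6) (hp : Sp π P p) :
    Sp π (fMw A E2 E3 E4 E5 E6 P) (fMw a e2 e3 e4 e5 e6 p) := by
  have hP := sp_fP hA hp
  unfold fMw
  exact (((sp_fM1 hA h2 h3 h4 h5 h6 hp).mul (sp_fX2 hA h2 hp)).sub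
    ((h5.div (Sp.ofNat 2) (by norm_num)).mul (sp_fD hA h2 h3 h5 hp))).add
    (((hP.mul (h2.sub hP)).div (Sp.ofNat 4) (by norm_num)).mul (sp_fN hA h2 h3 h4 h6 hp))

theorem sp_fNum (hA : Sp π A a) (h2 : Sp π E2 e2) (h3 : Sp π E3 e3) (h4 : Sp π E4 e4)
    (h5 : Sp π E5 e5) (h6 : Sp π E6 e6) (h8 : Sp π E8 e8) (hp : Sp π P p) :
    Sp π (fNum A E2 E3 E4 E5 E6 E8 P) (fNum a e2 e3 e4 e5 e6 e8 p) := by
  have hP := sp_fP hA hp
  have hD := sp_fD hA h2 h3 h5 hp
  unfold fNum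
  exact ((hP.mul ((sp_fM0 hA h2 h3 h4 h5 h6 hp).pow 2)).sub
    (((Sp.ofNat 4).mul (hD.pow 2)).mul ((sp_fMw hA h2 h3 h4 h5 h6 hp).pow 2))).sub
    ((((Sp.ofNat 4).mul h8).mul hP).mul (hD.pow 4))

theorem sp_fB (hA : Sp π A a) (h2 : Sp π E2 e2) (h3 : Sp π E3 e3) (h4 : Sp π E4 e4)
    (h5 : Sp π E5 e5) (h6 : Sp π E6 e6) (h7 : Sp π E7 e7) (hp : Sp π P p) :
    Sp π (fB A E2 E3 E4 E5 E6 E7 P) (fB a e2 e3 e4 e5 e6 e7 p) := by
  have hP := sp_fP hA hp
  have hD := sp_fD hA h2 h3 h5 hp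
  unfold fB
  exact (((sp_fM1 hA h2 h3 h4 h5 h6 hp).mul (sp_fM0 hA h2 h3 h4 h5 h6 hp)).sub
    ((((h2.sub hP).div (Sp.ofNat 2) (by norm_num)).mul (sp_fMw hA h2 h3 h4 h5 h6 hp)).mul
      (hD.pow 2))).sub (h7.mul (hD.pow 3))

theorem sp_fU (hA : Sp π A a) (h2 : Sp π E2 e2) (h3 : Sp π E3 e3) (h4 : Sp π E4 e4)
    (h5 : Sp π E5 e5) (h6 : Sp π E6 e6) (h7 : Sp π E7 e7) (hp : Sp π P p) :
    Sp π (fU A E2 E3 E4 E5 E6 E7 P) (fU a e2 e3 e4 e5 e6 e7 p) := by
  unfold fU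
  exact (((Sp.ofNat 4).mul (sp_fP hA hp)).mul (sp_fD hA h2 h3 h5 hp)).mul
    (sp_fB hA h2 h3 h4 h5 h6 h7 hp)

end sp

section main
variable {k : Type u} [Field k] [CharZero k]

theorem main8 (a e2 e3 e4 e5 e6 e7 e8 : k) (ha : a ≠ 0) (h : ¬ (e3 = 0 ∧ e5 = 0)) :
    Unirational a (X ^ 8 + C e2 * X ^ 6 + C e3 * X ^ 5 + C e4 * X ^ 4 + C e5 * X ^ 3
      + C e6 * X ^ 2 + C e7 * X + C e8) := by
  obtain ⟨F, hF⟩ : ∃ F : k[X], F = X ^ 8 + C e2 * X ^ 6 + C e3 * X ^ 5 + C e4 * X ^ 4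
      + C e5 * X ^ 3 + C e6 * X ^ 2 + C e7 * X + C e8 := ⟨_, rfl⟩
  rw [← hF]
  have hF0 : F ≠ 0 := by
    intro h0
    have h1 := congrArg (fun q => coeff q 8) h0
    rw [hF] at h1
    simp only [coeff_add, coeff_C_mul, coeff_X_pow, coeff_X, coeff_C, coeff_zero] at h1
    norm_num at h1
  have hFe : ∀ {R : Type u} [CommRing R] [Algebra k R] (t : R), aeval t F =
      t ^ 8 + algebraMap k R e2 * t ^ 6 + algebraMap k R e3 * t ^ 5 + algebraMap k R e4 * t ^ 4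
      + algebraMap k R e5 * t ^ 3 + algebraMap k R e6 * t ^ 2 + algebraMap k R e7 * t
      + algebraMap k R e8 := by
    intro R _ _ t
    rw [hF]
    simp only [map_add, map_mul, map_pow, aeval_X, aeval_C]
  let L := FractionRing (MvPolynomial (Fin 2) k)
  let c : k → L := fun r => algebraMap k L r
  let pL : L := algebraMap (MvPolynomial (Fin 2) k) L (MvPolynomial.X 0)
  let vL : L := algebraMap (MvPolynomial (Fin 2) k) L (MvPolynomial.X 1)
  -- points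
  let π : k → k → MvPolynomial (Fin 2) k →ₐ[k] k := fun p v => MvPolynomial.aeval ![p, v]
  have hc : ∀ p v r, Sp (π p v) (c r) r := fun p v r => Sp.const r
  have hpL : ∀ p v, Sp (π p v) pL p := by
    intro p v
    have := Sp.poly (π := π p v) (MvPolynomial.X 0)
    simpa [π] using this
  have hvL : ∀ p v, Sp (π p v) vL v := by
    intro p v
    have := Sp.poly (π := π p v) (MvPolynomial.X 1)
    simpa [π] using this
  have hUsp : ∀ p v, Sp (π p v) (fU (c a) (c e2) (c e3) (c e4) (c e5) (c e6) (c e7) pL)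
      (fU a e2 e3 e4 e5 e6 e7 p) := fun p v =>
    sp_fU (hc p v a) (hc p v e2) (hc p v e3) (hc p v e4) (hc p v e5) (hc p v e6) (hc p v e7)
      (hpL p v)
  -- the factors of the denominator
  have fac : ∀ {K : Type u} [Field K] [CharZero K] (a e2 e3 e4 e5 e6 e7 p : K),
      fU a e2 e3 e4 e5 e6 e7 p ≠ 0 → p ≠ 0 ∧ fD a e2 e3 e5 p ≠ 0 ∧
        fB a e2 e3 e4 e5 e6 e7 p ≠ 0 := by
    intro K _ _ a e2 e3 e4 e5 e6 e7 p hU
    unfold fU at hU
    refine ⟨?_, ?_, ?_⟩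
    · rintro rfl
      apply hU
      simp [fP]
    · exact right_ne_zero_of_mul (left_ne_zero_of_mul hU)
    · exact right_ne_zero_of_mul hU
  have hbase := base_infinite a e2 e3 e4 e5 e6 e7 e8 ha h
  have hU : fU (c a) (c e2) (c e3) (c e4) (c e5) (c e6) (c e7) pL ≠ 0 := by
    obtain ⟨_, p0, hp0, -⟩ := hbase.nonempty
    intro h0
    have := hUsp p0 0
    rw [h0] at this
    exact hp0 this.eq_zero
  obtain ⟨hp, hD, hB⟩ := fac _ _ _ _ _ _ _ _ hU
  have hca : c a ≠ 0 := (map_ne_zero (algebraMap k L)).mpr ha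
  have hW : 1 - c a * vL ^ 2 ≠ 0 := by
    intro h0
    have h1 : Sp (π 0 0) (1 - c a * vL ^ 2) (1 - a * 0 ^ 2) := by
      have h2 := (Sp.const (π := π 0 0) (1 : k)).sub ((hc 0 0 a).mul ((hvL 0 0).pow 2))
      rwa [map_one] at h2
    rw [h0] at h1
    have := h1.eq_zero
    norm_num at this
  -- the point of the generic fibre
  obtain ⟨t, ht⟩ : ∃ t, t = ft (c a) (c e2) (c e3) (c e4) (c e5) (c e6) (c e7) (c e8) pL :=
    ⟨_, rfl⟩
  obtain ⟨x0, hx0⟩ : ∃ x0, x0 = t ^ 4 + fX2 (c a) (c e2) pL * t ^ 2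
    + fx1 (c a) (c e2) (c e3) (c e4) (c e5) (c e6) pL * t
    + fx0 (c a) (c e2) (c e3) (c e4) (c e5) (c e6) pL := ⟨_, rfl⟩
  obtain ⟨y0, hy0⟩ : ∃ y0, y0 = pL * t ^ 3 + fq (c a) (c e2) (c e3) (c e4) (c e5) (c e6) pL * t ^ 2
    + fs (c a) (c e2) pL * t + fw (c a) (c e2) (c e3) (c e4) (c e5) (c e6) pL := ⟨_, rfl⟩
  have hpt := point (c a) (c e2) (c e3) (c e4) (c e5) (c e6) (c e7) (c e8) pL hca hp hD hB t ht
  rw [← hx0, ← hy0] at hpt
  obtain ⟨x, hx⟩ : ∃ x, x = (x0 * (1 + c a * vL ^ 2) + 2 * c a * vL * y0) / (1 - c a * vL ^ 2) :=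
    ⟨_, rfl⟩
  obtain ⟨y, hy⟩ : ∃ y, y = (y0 * (1 + c a * vL ^ 2) + 2 * vL * x0) / (1 - c a * vL ^ 2) :=
    ⟨_, rfl⟩
  refine ⟨2, t, x, y, ?_, ?_⟩
  · rw [hFe]
    change x ^ 2 - c a * y ^ 2 = t ^ 8 + c e2 * t ^ 6 + c e3 * t ^ 5 + c e4 * t ^ 4 + c e5 * t ^ 3
      + c e6 * t ^ 2 + c e7 * t + c e8
    rw [← hpt, hx, hy]
    field_simp
    ring
  · intro H hH t' x' y' hxy
    obtain ⟨A, B, hAB⟩ := division a F H
    -- the function vanishes at all good points of the plane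
    have hgood : ∀ p : k, fU a e2 e3 e4 e5 e6 e7 p ≠ 0 → ∀ v : k, 1 - a * v ^ 2 ≠ 0 →
        ∀ t1 : k, t1 = ft a e2 e3 e4 e5 e6 e7 e8 p →
        ∀ x1 : k, x1 = t1 ^ 4 + fX2 a e2 p * t1 ^ 2 + fx1 a e2 e3 e4 e5 e6 p * t1
          + fx0 a e2 e3 e4 e5 e6 p →
        ∀ y1 : k, y1 = p * t1 ^ 3 + fq a e2 e3 e4 e5 e6 p * t1 ^ 2 + fs a e2 p * t1
          + fw a e2 e3 e4 e5 e6 p →
        MvPolynomial.aeval ![t1, (x1 * (1 + a * v ^ 2) + 2 * a * v * y1) / (1 - a * v ^ 2),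
          (y1 * (1 + a * v ^ 2) + 2 * v * x1) / (1 - a * v ^ 2)] H = 0 := by
      intro p hUp v hv t1 ht1 x1 hx1 y1 hy1
      obtain ⟨hp0, hD0, hB0⟩ := fac _ _ _ _ _ _ _ _ hUp
      have sa := hc p v a
      have s2 := hc p v e2
      have s3 := hc p v e3
      have s4 := hc p v e4
      have s5 := hc p v e5
      have s6 := hc p v e6
      have s7 := hc p v e7
      have s8 := hc p v e8
      have sp := hpL p v
      have sv := hvL p v
      have sD := sp_fD sa s2 s3 s5 sp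
      have st : Sp (π p v) t t1 := by
        rw [ht, ht1]; unfold ft
        exact (sp_fNum sa s2 s3 s4 s5 s6 s8 sp).neg.div (hUsp p v) hUp
      have sx1 : Sp (π p v) (fx1 (c a) (c e2) (c e3) (c e4) (c e5) (c e6) pL)
          (fx1 a e2 e3 e4 e5 e6 p) := by
        unfold fx1; exact (sp_fM1 sa s2 s3 s4 s5 s6 sp).div sD hD0
      have sx0 : Sp (π p v) (fx0 (c a) (c e2) (c e3) (c e4) (c e5) (c e6) pL)
          (fx0 a e2 e3 e4 e5 e6 p) := by
        unfold fx0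
        exact (sp_fM0 sa s2 s3 s4 s5 s6 sp).div ((Sp.ofNat 2).mul (sD.pow 2))
          (mul_ne_zero (by norm_num) (pow_ne_zero 2 hD0))
      have sq : Sp (π p v) (fq (c a) (c e2) (c e3) (c e4) (c e5) (c e6) pL)
          (fq a e2 e3 e4 e5 e6 p) := by
        unfold fq; exact (sp.neg.mul (sp_fN sa s2 s3 s4 s6 sp)).div sD hD0
      have ss : Sp (π p v) (fs (c a) (c e2) pL) (fs a e2 p) := by
        unfold fs; exact (sp.mul (s2.sub (sp_fP sa sp))).div (Sp.ofNat 4) (by norm_num)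
      have sw : Sp (π p v) (fw (c a) (c e2) (c e3) (c e4) (c e5) (c e6) pL)
          (fw a e2 e3 e4 e5 e6 p) := by
        unfold fw
        exact (sp_fMw sa s2 s3 s4 s5 s6 sp).div ((sa.mul sp).mul sD)
          (mul_ne_zero (mul_ne_zero ha hp0) hD0)
      have sX : Sp (π p v) x0 x1 := by
        rw [hx0, hx1]
        exact (((st.pow 4).add ((sp_fX2 sa s2 sp).mul (st.pow 2))).add (sx1.mul st)).add sx0
      have sY : Sp (π p v) y0 y1 := by
        rw [hy0, hy1]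
        exact (((sp.mul (st.pow 3)).add (sq.mul (st.pow 2))).add (ss.mul st)).add sw
      have s1 : Sp (π p v) (1 : L) (1 : k) := by
        have := Sp.const (π := π p v) (1 : k)
        rwa [map_one] at this
      have sW : Sp (π p v) (1 - c a * vL ^ 2) (1 - a * v ^ 2) := s1.sub (sa.mul (sv.pow 2))
      have sW' : Sp (π p v) (1 + c a * vL ^ 2) (1 + a * v ^ 2) := s1.add (sa.mul (sv.pow 2))
      have sx : Sp (π p v) x ((x1 * (1 + a * v ^ 2) + 2 * a * v * y1) / (1 - a * v ^ 2)) := by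
        rw [hx]
        exact ((sX.mul sW').add ((((Sp.ofNat 2).mul sa).mul sv).mul sY)).div sW hv
      have sy : Sp (π p v) y ((y1 * (1 + a * v ^ 2) + 2 * v * x1) / (1 - a * v ^ 2)) := by
        rw [hy]
        exact ((sY.mul sW').add ((((Sp.ofNat 2).mul sv)).mul sX)).div sW hv
      have hfin := Sp.aeval (π := π p v) (z := ![t, x, y])
        (c := ![t1, (x1 * (1 + a * v ^ 2) + 2 * a * v * y1) / (1 - a * v ^ 2),
          (y1 * (1 + a * v ^ 2) + 2 * v * x1) / (1 - a * v ^ 2)]) (by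
        intro i
        fin_cases i
        · exact st
        · exact sx
        · exact sy) H
      rw [hH] at hfin
      exact hfin.eq_zero
    -- the norm
    have hG : A ^ 2 - B ^ 2 * (C (C a) * X ^ 2 + C F) = 0 := by
      apply dense_zero _ (((fun p => ft a e2 e3 e4 e5 e6 e7 e8 p) ''
        {p : k | fU a e2 e3 e4 e5 e6 e7 p ≠ 0}) \ {t | IsRoot F t})
        (hbase.sdiff (finite_setOfPred_isRoot hF0))
      rintro t1 ⟨⟨p, hUp, ht1⟩, hroot⟩
      simp only [Set.mem_ofPred_eq] at hUp hroot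
      obtain ⟨hp0, hD0, hB0⟩ := fac _ _ _ _ _ _ _ _ hUp
      have hpt1 := point a e2 e3 e4 e5 e6 e7 e8 p ha hp0 hD0 hB0 t1 ht1.symm
      obtain ⟨x1, hx1⟩ : ∃ x1, x1 = t1 ^ 4 + fX2 a e2 p * t1 ^ 2 + fx1 a e2 e3 e4 e5 e6 p * t1
          + fx0 a e2 e3 e4 e5 e6 p := ⟨_, rfl⟩
      obtain ⟨y1, hy1⟩ : ∃ y1, y1 = p * t1 ^ 3 + fq a e2 e3 e4 e5 e6 p * t1 ^ 2 + fs a e2 p * t1
          + fw a e2 e3 e4 e5 e6 p := ⟨_, rfl⟩
      rw [← hx1, ← hy1] at hpt1
      have hFt : x1 ^ 2 - a * y1 ^ 2 = aeval t1 F := by rw [hFe, hpt1]; rfl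
      have hne : x1 ^ 2 - a * y1 ^ 2 ≠ 0 := by
        rw [hFt, coe_aeval_eq_eval]; exact hroot
      refine (fibre_infinite a x1 y1 ha hne).mono ?_
      rintro _ ⟨v, hv, rfl⟩
      simp only [Set.mem_ofPred_eq] at hv ⊢
      have h1 := hgood p hUp v hv t1 ht1.symm x1 hx1 y1 hy1
      have h2 : ((x1 * (1 + a * v ^ 2) + 2 * a * v * y1) / (1 - a * v ^ 2)) ^ 2
          - algebraMap k k a * ((y1 * (1 + a * v ^ 2) + 2 * v * x1) / (1 - a * v ^ 2)) ^ 2
          = aeval t1 F := by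
        rw [← hFt]
        change _ - a * _ = _
        field_simp
        ring
      rw [hAB t1 _ _ h2] at h1
      rw [map_sub, map_mul, map_pow, map_pow, map_add, map_mul, map_pow, ev2_C, ev2_C, ev2_X,
        aeval_C, ← h2]
      linear_combination (ev2 t1 ((y1 * (1 + a * v ^ 2) + 2 * v * x1) / (1 - a * v ^ 2)) A
        - ev2 t1 ((y1 * (1 + a * v ^ 2) + 2 * v * x1) / (1 - a * v ^ 2)) B
          * ((x1 * (1 + a * v ^ 2) + 2 * a * v * y1) / (1 - a * v ^ 2))) * h1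
    have h3 : A ^ 2 = B ^ 2 * (C (C a) * X ^ 2 + C F) := sub_eq_zero.mp hG
    have hB' : B = 0 := by
      by_contra hB'
      have h4 : B ^ 2 ∣ A ^ 2 := ⟨_, h3⟩
      have h5 : B ∣ A := (IsIntegrallyClosed.pow_dvd_pow_iff (two_ne_zero)).mp h4
      obtain ⟨q, hq⟩ := h5
      apply not_sq a ha F hF0 q
      apply mul_left_cancel₀ (pow_ne_zero 2 hB')
      rw [← h3, hq]; ring
    have hA' : A = 0 := by
      rw [hB'] at h3
      have : A ^ 2 = 0 := by rw [h3]; ring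
      exact pow_eq_zero_iff (two_ne_zero) |>.mp this
    rw [hAB t' x' y' hxy, hA', hB']
    simp

end main

end Pool.Agent.Work.MP_d5a5f5_ag.C8
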