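import Mathlib

/-!
The curve on `x² - a y² = F(t)`, as an identity in a field.
-/

namespace Pool.Agent.Work.MP_d5a5f5_ag.C8

section
variable {L : Type*} [Field L] [CharZero L] (a e2 e3 e4 e5 e6 e7 e8 p : L)

/-- `a p²` -/
def fP : L := a * p ^ 2
def fN : L := (4 * e3 ^ 2 - 16 * e6 + 8 * e2 * e4 - 2 * e2 ^ 3 + fP a p * (8 * e4 - 3 * e2 ^ 2)
  - 4 * e2 * fP a p ^ 2 - 7 * fP a p ^ 3) / 16
def fD : L := e3 * (fP a p - e2) / 2 + e5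
def fX2 : L := (e2 + fP a p) / 2
def fM1 : L := e3 / 2 * fD a e2 e3 e5 p - fP a p * fN a e2 e3 e4 e6 p
def fM0 : L := (e4 - fX2 a e2 p ^ 2 + fP a p * (e2 - fP a p) / 2) * fD a e2 e3 e5 p ^ 2
  + fP a p * fN a e2 e3 e4 e6 p ^ 2
def fMw : L := fM1 a e2 e3 e4 e5 e6 p * fX2 a e2 p - e5 / 2 * fD a e2 e3 e5 p
  + fP a p * (e2 - fP a p) / 4 * fN a e2 e3 e4 e6 p
def fNum : L := fP a p * fM0 a e2 e3 e4 e5 e6 p ^ 2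
  - 4 * fD a e2 e3 e5 p ^ 2 * fMw a e2 e3 e4 e5 e6 p ^ 2 - 4 * e8 * fP a p * fD a e2 e3 e5 p ^ 4
def fB : L := fM1 a e2 e3 e4 e5 e6 p * fM0 a e2 e3 e4 e5 e6 p
  - (e2 - fP a p) / 2 * fMw a e2 e3 e4 e5 e6 p * fD a e2 e3 e5 p ^ 2 - e7 * fD a e2 e3 e5 p ^ 3
def fU : L := 4 * fP a p * fD a e2 e3 e5 p * fB a e2 e3 e4 e5 e6 e7 p
/-- the base coordinate of the point -/
def ft : L := - fNum a e2 e3 e4 e5 e6 e8 p / fU a e2 e3 e4 e5 e6 e7 p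
/-- the coefficients of `x` and `y` as polynomials in `t` -/
def fx1 : L := fM1 a e2 e3 e4 e5 e6 p / fD a e2 e3 e5 p
def fx0 : L := fM0 a e2 e3 e4 e5 e6 p / (2 * fD a e2 e3 e5 p ^ 2)
def fq : L := - p * fN a e2 e3 e4 e6 p / fD a e2 e3 e5 p
def fs : L := p * (e2 - fP a p) / 4
def fw : L := fMw a e2 e3 e4 e5 e6 p / (a * p * fD a e2 e3 e5 p)

theorem family (ha : a ≠ 0) (hp : p ≠ 0) (hD : fD a e2 e3 e5 p ≠ 0) (τ : L) :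
    (τ ^ 4 + fX2 a e2 p * τ ^ 2 + fx1 a e2 e3 e4 e5 e6 p * τ + fx0 a e2 e3 e4 e5 e6 p) ^ 2
    - a * (p * τ ^ 3 + fq a e2 e3 e4 e5 e6 p * τ ^ 2 + fs a e2 p * τ
      + fw a e2 e3 e4 e5 e6 p) ^ 2
    - (τ ^ 8 + e2 * τ ^ 6 + e3 * τ ^ 5 + e4 * τ ^ 4 + e5 * τ ^ 3 + e6 * τ ^ 2 + e7 * τ + e8) =
    fB a e2 e3 e4 e5 e6 e7 p / fD a e2 e3 e5 p ^ 3 * τ
      + fNum a e2 e3 e4 e5 e6 e8 p / (4 * fP a p * fD a e2 e3 e5 p ^ 4) := by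
  have hP : fP a p ≠ 0 := mul_ne_zero ha (pow_ne_zero 2 hp)
  have hPp : fP a p = a * p ^ 2 := rfl
  obtain ⟨D, hDdef⟩ : ∃ D, D = fD a e2 e3 e5 p := ⟨_, rfl⟩
  obtain ⟨N, hNdef⟩ : ∃ N, N = fN a e2 e3 e4 e6 p := ⟨_, rfl⟩
  obtain ⟨M1, hM1⟩ : ∃ M1, M1 = fM1 a e2 e3 e4 e5 e6 p := ⟨_, rfl⟩
  obtain ⟨M0, hM0⟩ : ∃ M0, M0 = fM0 a e2 e3 e4 e5 e6 p := ⟨_, rfl⟩
  obtain ⟨Mw, hMw⟩ : ∃ Mw, Mw = fMw a e2 e3 e4 e5 e6 p := ⟨_, rfl⟩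
  obtain ⟨P, hPdef⟩ : ∃ P, P = fP a p := ⟨_, rfl⟩
  rw [← hDdef] at hD
  rw [← hPdef] at hP hPp
  unfold fB fNum
  rw [← hDdef, ← hM1, ← hM0, ← hMw, ← hPdef]
  obtain ⟨x2, hx2⟩ : ∃ x2, x2 = fX2 a e2 p := ⟨_, rfl⟩
  obtain ⟨x1, hx1⟩ : ∃ x1, x1 = fx1 a e2 e3 e4 e5 e6 p := ⟨_, rfl⟩
  obtain ⟨x0, hx0⟩ : ∃ x0, x0 = fx0 a e2 e3 e4 e5 e6 p := ⟨_, rfl⟩
  obtain ⟨q, hq⟩ : ∃ q, q = fq a e2 e3 e4 e5 e6 p := ⟨_, rfl⟩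
  obtain ⟨s, hs⟩ : ∃ s, s = fs a e2 p := ⟨_, rfl⟩
  obtain ⟨w, hw⟩ : ∃ w, w = fw a e2 e3 e4 e5 e6 p := ⟨_, rfl⟩
  rw [← hx2, ← hx1, ← hx0, ← hq, ← hs, ← hw]
  unfold fX2 at hx2
  unfold fx1 at hx1
  unfold fx0 at hx0
  unfold fq at hq
  unfold fs at hs
  unfold fw at hw
  rw [← hM1, ← hDdef] at hx1
  rw [← hM0, ← hDdef] at hx0
  rw [← hMw, ← hDdef] at hw
  rw [← hDdef, ← hNdef] at hq
  rw [← hPdef] at hx2 hs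
  unfold fMw at hMw
  rw [← hM1, ← hDdef, ← hNdef, ← hPdef] at hMw
  unfold fM1 at hM1
  unfold fM0 at hM0
  unfold fX2 at hM0 hMw
  rw [← hDdef, ← hNdef, ← hPdef] at hM1 hM0
  rw [← hPdef] at hMw
  unfold fN at hNdef
  unfold fD at hDdef
  rw [← hPdef] at hNdef hDdef
  have c6 : 2 * x2 = e2 + P := by rw [hx2]; field_simp
  have c5 : 2 * x1 = e3 + 2 * a * p * q := by
    rw [hx1, hM1, hq, hPp]; field_simp; ring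
  have c4 : 2 * x0 = e4 - x2 ^ 2 + a * q ^ 2 + 2 * a * p * s := by
    rw [hx0, hM0, hx2, hq, hs, hPp]; field_simp; ring
  have c3 : 2 * a * p * w = 2 * x1 * x2 - e5 - 2 * a * q * s := by
    rw [hx1, hM1, hx2, hq, hs, hw, hMw, hM1, hPp]; field_simp; ring
  have hqD : q * D + p * N = 0 := by rw [hq]; field_simp; ring
  have c2 : x1 ^ 2 + 2 * x0 * x2 - a * s ^ 2 - 2 * a * q * w - e6 = 0 := by
    have hx1' : x1 = (e3 + 2 * a * p * q) / 2 := by linear_combination c5 / 2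
    have hx2' : x2 = (e2 + P) / 2 := hx2
    have hx0' : x0 = (e4 - x2 ^ 2 + a * q ^ 2 + 2 * a * p * s) / 2 := by
      linear_combination c4 / 2
    have hw' : w = (2 * x1 * x2 - e5 - 2 * a * q * s) / (2 * a * p) := by
      rw [← c3]; field_simp
    apply mul_left_cancel₀ hp
    rw [mul_zero, ← hqD, hw', hx0', hx1', hx2', hs, hDdef, hNdef, hPp]
    field_simp
    ring
  have c1 : 2 * x1 * x0 - 2 * a * s * w - e7 = (M1 * M0 - (e2 - P) / 2 * Mw * D ^ 2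
      - e7 * D ^ 3) / D ^ 3 := by
    rw [hx1, hx0, hs, hw]
    field_simp
    ring
  have c0 : x0 ^ 2 - a * w ^ 2 - e8 = (P * M0 ^ 2 - 4 * D ^ 2 * Mw ^ 2 - 4 * e8 * P * D ^ 4)
      / (4 * P * D ^ 4) := by
    rw [hx0, hw, hPp]
    field_simp
    ring
  linear_combination τ ^ 6 * c6 + τ ^ 5 * c5 + τ ^ 4 * c4 + τ ^ 3 * (-c3) + τ ^ 2 * c2
    + τ * c1 + c0 + τ ^ 6 * hPp

/-- the point on the fibre over `ft` -/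
theorem point (ha : a ≠ 0) (hp : p ≠ 0) (hD : fD a e2 e3 e5 p ≠ 0)
    (hB : fB a e2 e3 e4 e5 e6 e7 p ≠ 0) (τ : L)
    (hτ : τ = ft a e2 e3 e4 e5 e6 e7 e8 p) :
    (τ ^ 4 + fX2 a e2 p * τ ^ 2 + fx1 a e2 e3 e4 e5 e6 p * τ + fx0 a e2 e3 e4 e5 e6 p) ^ 2
    - a * (p * τ ^ 3 + fq a e2 e3 e4 e5 e6 p * τ ^ 2 + fs a e2 p * τ
      + fw a e2 e3 e4 e5 e6 p) ^ 2 =
    τ ^ 8 + e2 * τ ^ 6 + e3 * τ ^ 5 + e4 * τ ^ 4 + e5 * τ ^ 3 + e6 * τ ^ 2 + e7 * τ + e8 := by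
  have h1 := family a e2 e3 e4 e5 e6 e7 e8 p ha hp hD τ
  have hP : fP a p ≠ 0 := mul_ne_zero ha (pow_ne_zero 2 hp)
  have h2 : fB a e2 e3 e4 e5 e6 e7 p / fD a e2 e3 e5 p ^ 3 * τ
      + fNum a e2 e3 e4 e5 e6 e8 p / (4 * fP a p * fD a e2 e3 e5 p ^ 4) = 0 := by
    rw [hτ]
    unfold ft fU
    field_simp
    ring
  linear_combination h1 + h2

end

end Pool.Agent.Work.MP_d5a5f5_ag.C8
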